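import Pool.Agent.R43.BSearch

/-!
# MP_4edf50_co: `Γ_b(T) - α_bn(T)` is unbounded above over all trees `T`

The tree `T m` is a caterpillar with spine `0, 1, …, 3m - 1` and one leaf attached to each spine vertex `p` with
`p % 3 ≠ 1`. We show `Γ_b(T m) ≥ 4m` and `2 α_bn(T m) ≤ 7m + 3`.
-/

set_option autoImplicit false

namespace Pool.Agent.Results.MP_4edf50_co.Unbounded

section Definitions

variable {V : Type} [Fintype V] [DecidableEq V]

/-- The eccentricity of `v`. -/
noncomputable def ecc (G : SimpleGraph V) (v : V) : ℕ := Finset.univ.sup fun u => G.dist v u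

/-- `f` is a broadcast: `f v ≤ e(v)` for all `v`. (The graph is understood to be connected.) -/
def IsBroadcast (G : SimpleGraph V) (f : V → ℕ) : Prop := ∀ v, f v ≤ ecc G v

/-- `f` is dominating: every `u` hears `f` from some `v`, that is, `f v > 0` and `d(u, v) ≤ f v`. -/
def Dominating (G : SimpleGraph V) (f : V → ℕ) : Prop := ∀ u, ∃ v, 0 < f v ∧ G.dist u v ≤ f v

/-- `f` is a minimal dominating broadcast: no broadcast `g ≤ f`, `g ≠ f`, is dominating. -/
def MinimalDominating (G : SimpleGraph V) (f : V → ℕ) : Prop :=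
  IsBroadcast G f ∧ Dominating G f ∧
    ∀ g : V → ℕ, IsBroadcast G g → (∀ v, g v ≤ f v) → g ≠ f → ¬ Dominating G g

/-- The upper broadcast domination number `Γ_b(G)`: the largest weight of a minimal dominating
broadcast. -/
noncomputable def upperBroadcast (G : SimpleGraph V) : ℕ :=
  sSup {c : ℕ | ∃ f : V → ℕ, MinimalDominating G f ∧ ∑ v, f v = c}

/-- `f` is bn-independent: a vertex `x` in `N_f(u) ∩ N_f(v)`, for distinct broadcasting `u`, `v`, lies in
`B_f(u) ∩ B_f(v)`. -/
def BnIndependent (G : SimpleGraph V) (f : V → ℕ) : Prop :=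
  ∀ u v, u ≠ v → 0 < f u → 0 < f v → ∀ x, G.dist x u ≤ f u → G.dist x v ≤ f v →
    G.dist x u = f u ∧ G.dist x v = f v

/-- The boundary independence number `α_bn(G)`: the largest weight of a bn-independent broadcast. -/
noncomputable def bnNumber (G : SimpleGraph V) : ℕ :=
  sSup {c : ℕ | ∃ f : V → ℕ, IsBroadcast G f ∧ BnIndependent G f ∧ ∑ v, f v = c}

end Definitions

/-! ### The trees -/

/-- Vertices of `T m`: pairs `(p, false)` (spine) and `(p, true)` (leaf attached to `p`, `p % 3 ≠ 1`). -/
def Vtx (m : ℕ) : Type := {x : Fin (3 * m) × Bool // x.2 = true → x.1.val % 3 ≠ 1}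

instance (m : ℕ) : Fintype (Vtx m) :=
  inferInstanceAs (Fintype {x : Fin (3 * m) × Bool // x.2 = true → x.1.val % 3 ≠ 1})

instance (m : ℕ) : DecidableEq (Vtx m) :=
  inferInstanceAs (DecidableEq {x : Fin (3 * m) × Bool // x.2 = true → x.1.val % 3 ≠ 1})

variable {m : ℕ}

/-- The position on the spine. -/
def pos (x : Vtx m) : ℕ := x.1.1.val

/-- `0` for spine vertices, `1` for leaves. -/
def dep (x : Vtx m) : ℕ := x.1.2.toNat

theorem pos_lt (x : Vtx m) : pos x < 3 * m := x.1.1.2

theorem dep_le (x : Vtx m) : dep x ≤ 1 := by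
  unfold dep
  cases x.1.2 <;> simp

theorem pos_mod (x : Vtx m) (h : dep x = 1) : pos x % 3 ≠ 1 := by
  apply x.2
  unfold dep at h
  revert h
  cases x.1.2 <;> simp

theorem vext {x y : Vtx m} (h1 : pos x = pos y) (h2 : dep x = dep y) : x = y := by
  apply Subtype.ext
  apply Prod.ext (Fin.ext h1)
  unfold dep at h2
  revert h2
  cases x.1.2 <;> cases y.1.2 <;> simp

/-- The spine vertex `p`. -/
def sp (p : ℕ) (hp : p < 3 * m) : Vtx m := ⟨(⟨p, hp⟩, false), by simp⟩

/-- The leaf at `p`. -/
def lf (p : ℕ) (hp : p < 3 * m) (h : p % 3 ≠ 1) : Vtx m := ⟨(⟨p, hp⟩, true), fun _ => h⟩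

theorem pos_sp (p : ℕ) (hp : p < 3 * m) : pos (sp p hp) = p := rfl
theorem dep_sp (p : ℕ) (hp : p < 3 * m) : dep (sp p hp) = 0 := rfl
theorem pos_lf (p : ℕ) (hp : p < 3 * m) (h : p % 3 ≠ 1) : pos (lf p hp h) = p := rfl
theorem dep_lf (p : ℕ) (hp : p < 3 * m) (h : p % 3 ≠ 1) : dep (lf p hp h) = 1 := rfl

/-- The distance between the vertices with positions `p`, `q` and depths `a`, `b`. -/
def dd (p a q b : ℕ) : ℕ := (p - q) + (q - p) + (if p = q then (a - b) + (b - a) else a + b)

/-- The caterpillar. -/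
def T (m : ℕ) : SimpleGraph (Vtx m) where
  Adj x y := dd (pos x) (dep x) (pos y) (dep y) = 1
  symm := ⟨by
    intro x y h
    unfold dd at h ⊢
    split_ifs at h ⊢ <;> omega⟩
  loopless := ⟨by
    intro x h
    unfold dd at h
    split_ifs at h <;> omega⟩

theorem adj_def (x y : Vtx m) : (T m).Adj x y ↔ dd (pos x) (dep x) (pos y) (dep y) = 1 := Iff.rfl

theorem table1 (u v : Vtx m) (h : dd (pos u) (dep u) (pos v) (dep v) = 0) : u = v := by
  have h1 := dep_le u
  have h2 := dep_le v
  unfold dd at h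
  split_ifs at h with hp
  · exact vext hp (by omega)
  · omega

theorem table2 (u v : Vtx m) (h : dd (pos u) (dep u) (pos v) (dep v) ≠ 0) :
    ∃ w : Vtx m, (T m).Adj u w ∧
      dd (pos w) (dep w) (pos v) (dep v) + 1 = dd (pos u) (dep u) (pos v) (dep v) := by
  have h1 := dep_le u
  have h2 := dep_le v
  have h3 := pos_lt u
  have h4 := pos_lt v
  by_cases hd : dep u = 1
  · refine ⟨sp (pos u) h3, ?_, ?_⟩
    · rw [adj_def, pos_sp, dep_sp]
      unfold dd
      split_ifs <;> omega
    · rw [pos_sp, dep_sp]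
      unfold dd at h ⊢
      split_ifs at h ⊢ <;> omega
  · rcases Nat.lt_trichotomy (pos u) (pos v) with hlt | heq | hgt
    · refine ⟨sp (pos u + 1) (by omega), ?_, ?_⟩
      · rw [adj_def, pos_sp, dep_sp]
        unfold dd
        split_ifs <;> omega
      · rw [pos_sp, dep_sp]
        unfold dd at h ⊢
        split_ifs at h ⊢ <;> omega
    · refine ⟨v, ?_, ?_⟩
      · rw [adj_def]
        unfold dd at h ⊢
        split_ifs at h ⊢ <;> omega
      · unfold dd at h ⊢
        split_ifs at h ⊢ <;> omega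
    · refine ⟨sp (pos u - 1) (by omega), ?_, ?_⟩
      · rw [adj_def, pos_sp, dep_sp]
        unfold dd
        split_ifs <;> omega
      · rw [pos_sp, dep_sp]
        unfold dd at h ⊢
        split_ifs at h ⊢ <;> omega

theorem T_dist (u v : Vtx m) : (T m).dist u v = dd (pos u) (dep u) (pos v) (dep v) := by
  refine R43.BSearch.dist_eq_of_table (T m) (fun u v => dd (pos u) (dep u) (pos v) (dep v))
    table1 ?_ ?_ table2 u v
  · intro u
    simp [dd]
  · intro u v w h
    rw [adj_def] at h
    have h1 := dep_le u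
    have h2 := dep_le v
    have h3 := dep_le w
    unfold dd at h ⊢
    split_ifs at h ⊢ <;> omega

theorem T_connected (hm : 1 ≤ m) : (T m).Connected := by
  have : Nonempty (Vtx m) := ⟨sp 0 (by omega)⟩
  exact R43.BSearch.connected_of_table (T m) (fun u v => dd (pos u) (dep u) (pos v) (dep v))
    table1 table2

/-- A graph in which every vertex has at most one neighbour of at most its own height is acyclic. -/
theorem acyclic_of_height {V : Type} (G : SimpleGraph V) (h : V → ℕ)
    (h1 : ∀ u v w, G.Adj u v → G.Adj u w → h v ≤ h u → h w ≤ h u → v = w) : G.IsAcyclic := by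
  classical
  intro v c hc
  obtain ⟨u, hu, hmax⟩ : ∃ u ∈ c.support, ∀ w ∈ c.support, h w ≤ h u := by
    obtain ⟨u, hu, hmax⟩ := Finset.exists_max_image c.support.toFinset h
      ⟨v, List.mem_toFinset.2 c.start_mem_support⟩
    exact ⟨u, List.mem_toFinset.1 hu, fun w hw => hmax w (List.mem_toFinset.2 hw)⟩
  have hc' : (c.rotate u hu).IsCycle := hc.rotate hu
  have hmem : ∀ w, w ∈ (c.rotate u hu).support → w ∈ c.support := by
    intro w hw
    exact (SimpleGraph.Walk.mem_support_rotate_iff c u hu).1 hw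
  apply hc'.snd_ne_penultimate
  apply h1 u
  · exact (c.rotate u hu).adj_snd hc'.not_nil
  · exact ((c.rotate u hu).adj_penultimate hc'.not_nil).symm
  · exact hmax _ (hmem _ (SimpleGraph.Walk.getVert_mem_support _ _))
  · exact hmax _ (hmem _ (SimpleGraph.Walk.getVert_mem_support _ _))

theorem T_tree (hm : 1 ≤ m) : (T m).IsTree := by
  refine ⟨T_connected hm, acyclic_of_height (T m) (fun x => pos x + dep x) ?_⟩
  intro u v w h1 h2 h3 h4
  rw [adj_def] at h1 h2
  have a1 := dep_le u
  have a2 := dep_le v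
  have a3 := dep_le w
  unfold dd at h1 h2
  apply vext <;> split_ifs at h1 h2 <;> omega

/-! ### The lower bound for `Γ_b` -/

/-- The broadcast: strength `4` at the leaves with position `0` or `5` modulo `6`. -/
def f0 (x : Vtx m) : ℕ := if dep x = 1 ∧ (pos x % 6 = 0 ∨ pos x % 6 = 5) then 4 else 0

theorem f0_pos {x : Vtx m} (h : 0 < f0 x) : dep x = 1 ∧ (pos x % 6 = 0 ∨ pos x % 6 = 5) := by
  unfold f0 at h
  split_ifs at h with h1
  · exact h1
  · omega

theorem f0_le (x : Vtx m) : f0 x ≤ 4 := by
  unfold f0; split_ifs <;> omega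

/-- The private vertex of a broadcasting vertex. -/
theorem priv {x : Vtx m} (h : dep x = 1 ∧ (pos x % 6 = 0 ∨ pos x % 6 = 5)) :
    ∃ w : Vtx m, dep w = 1 ∧ (pos w % 6 = 2 ∧ pos w = pos x + 2 ∨ pos w % 6 = 3 ∧ pos w + 2 = pos x) := by
  have h1 := pos_lt x
  rcases h.2 with h2 | h2
  · exact ⟨lf (pos x + 2) (by omega) (by omega), rfl, Or.inl ⟨by rw [pos_lf]; omega, rfl⟩⟩
  · exact ⟨lf (pos x - 2) (by omega) (by omega), rfl,
      Or.inr ⟨by rw [pos_lf]; omega, by rw [pos_lf]; omega⟩⟩

theorem f0_min : MinimalDominating (T m) f0 := by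
  refine ⟨?_, ?_, ?_⟩
  · intro v
    by_cases h : 0 < f0 v
    · have h1 := f0_pos h
      obtain ⟨w, hw1, hw2⟩ := priv h1
      have h2 : (T m).dist v w = 4 := by
        rw [T_dist]
        unfold dd
        split_ifs <;> omega
      calc f0 v ≤ 4 := f0_le v
        _ = (T m).dist v w := h2.symm
        _ ≤ _ := Finset.le_sup (f := fun u => (T m).dist v u) (Finset.mem_univ _)
    · have : f0 v = 0 := by omega
      rw [this]; exact Nat.zero_le _
  · intro u
    have h1 := pos_lt u
    have h2 := dep_le u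
    by_cases hpar : pos u / 3 % 2 = 0
    · have hf : f0 (lf (m := m) (pos u / 3 * 3) (by omega) (by omega)) = 4 :=
        if_pos ⟨rfl, by rw [pos_lf]; omega⟩
      refine ⟨lf (pos u / 3 * 3) (by omega) (by omega), ?_, ?_⟩
      · rw [hf]; omega
      · rw [hf, T_dist, pos_lf, dep_lf]
        unfold dd
        split_ifs <;> omega
    · have hf : f0 (lf (m := m) (pos u / 3 * 3 + 2) (by omega) (by omega)) = 4 :=
        if_pos ⟨rfl, by rw [pos_lf]; omega⟩
      refine ⟨lf (pos u / 3 * 3 + 2) (by omega) (by omega), ?_, ?_⟩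
      · rw [hf]; omega
      · rw [hf, T_dist, pos_lf, dep_lf]
        unfold dd
        split_ifs <;> omega
  · intro g _ hgf hne hgd
    obtain ⟨v, hv⟩ := Function.ne_iff.1 hne
    have hlt : g v < f0 v := lt_of_le_of_ne (hgf v) hv
    have h1 := f0_pos (x := v) (by omega)
    obtain ⟨w, hw1, hw2⟩ := priv h1
    obtain ⟨z, hz0, hz⟩ := hgd w
    have hz4 : 0 < f0 z := lt_of_lt_of_le hz0 (hgf z)
    have h2 := f0_pos hz4
    have h3 : g z ≤ 4 := (hgf z).trans (f0_le z)
    have h4 := f0_le v
    rw [T_dist] at hz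
    have hzv : z = v := by
      apply vext _ (by rw [h1.1, h2.1])
      unfold dd at hz
      split_ifs at hz <;> omega
    subst hzv
    unfold dd at hz
    split_ifs at hz <;> omega

/-- The broadcasting vertex of the `i`-th group. -/
def bv (i : Fin m) : Vtx m :=
  if h : i.val % 2 = 0 then lf (3 * i.val) (by have := i.2; omega) (by omega)
  else lf (3 * i.val + 2) (by have := i.2; omega) (by omega)

theorem bv_pos (i : Fin m) : dep (bv i) = 1 ∧
    (i.val % 2 = 0 ∧ pos (bv i) = 3 * i.val ∨ i.val % 2 = 1 ∧ pos (bv i) = 3 * i.val + 2) := by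
  unfold bv
  split_ifs with h
  · exact ⟨rfl, Or.inl ⟨h, rfl⟩⟩
  · exact ⟨rfl, Or.inr ⟨by omega, rfl⟩⟩

theorem f0_sum : 4 * m ≤ ∑ x : Vtx m, f0 x := by
  have hinj : Function.Injective (bv (m := m)) := by
    intro i j hij
    have h1 := bv_pos i
    have h2 := bv_pos j
    rw [hij] at h1
    apply Fin.ext
    omega
  calc 4 * m = ∑ i : Fin m, f0 (bv i) := by
        rw [Finset.sum_congr rfl (g := fun _ => 4)]
        · simp [mul_comm]
        · intro i _
          have h1 := bv_pos i
          unfold f0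
          rw [if_pos ⟨h1.1, by omega⟩]
    _ = ∑ x ∈ Finset.univ.image bv, f0 x := (Finset.sum_image (fun a _ b _ h => hinj h)).symm
    _ ≤ _ := Finset.sum_le_sum_of_subset (Finset.subset_univ _)

theorem upper_ge : 4 * m ≤ upperBroadcast (T m) := by
  refine f0_sum.trans ?_
  apply le_csSup
  · refine ⟨∑ v, ecc (T m) v, ?_⟩
    rintro c ⟨g, hg, rfl⟩
    exact Finset.sum_le_sum fun v _ => hg.1 v
  · exact ⟨f0, f0_min, rfl⟩

/-! ### The upper bound for `α_bn` -/

/-- The spine edges in the ball of radius `s` about `(p, a)`. -/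
def SE (m p a s : ℕ) : Finset ℕ :=
  (Finset.range (3 * m - 1)).filter fun q => dd p a q 0 ≤ s ∧ dd p a (q + 1) 0 ≤ s

/-- The leaf edges in the ball of radius `s` about `(p, a)`. -/
def LE (m p a s : ℕ) : Finset ℕ :=
  (Finset.range (3 * m)).filter fun q => q % 3 ≠ 1 ∧ dd p a q 0 ≤ s ∧ dd p a q 1 ≤ s

/-- The extreme leaf edges in the ball. -/
def RE (m p a s : ℕ) : Finset ℕ := (LE m p a s).filter fun q => q = 0 ∨ q = 3 * m - 1

theorem count_mod (K : ℕ) : ((Finset.range K).filter fun q => q % 3 ≠ 1).card = K - (K + 1) / 3 := by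
  induction K with
  | zero => rfl
  | succ K ih =>
    rw [Finset.range_add_one, Finset.filter_insert]
    split_ifs with h
    · rw [Finset.card_insert_of_notMem (by simp), ih]
      omega
    · rw [ih]
      omega

theorem SE_card {m p a s lo hi : ℕ} (h : ∀ q, lo ≤ q → q < hi →
    q < 3 * m - 1 ∧ dd p a q 0 ≤ s ∧ dd p a (q + 1) 0 ≤ s) : hi - lo ≤ (SE m p a s).card := by
  rw [← Nat.card_Ico]
  apply Finset.card_le_card
  intro q hq
  rw [Finset.mem_Ico] at hq
  unfold SE
  rw [Finset.mem_filter, Finset.mem_range]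
  exact h q hq.1 hq.2

theorem LE_card {m p a s lo hi : ℕ} (h : ∀ q, lo ≤ q → q < hi → q % 3 ≠ 1 →
    q < 3 * m ∧ dd p a q 0 ≤ s ∧ dd p a q 1 ≤ s) :
    hi - (hi + 1) / 3 ≤ (LE m p a s).card + (lo - (lo + 1) / 3) := by
  rw [← count_mod, ← count_mod]
  have : ((Finset.range hi).filter fun q => q % 3 ≠ 1) ⊆
      LE m p a s ∪ ((Finset.range lo).filter fun q => q % 3 ≠ 1) := by
    intro q hq
    rw [Finset.mem_filter, Finset.mem_range] at hq
    rw [Finset.mem_union, Finset.mem_filter, Finset.mem_range]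
    by_cases hql : q < lo
    · exact Or.inr ⟨hql, hq.2⟩
    · left
      unfold LE
      rw [Finset.mem_filter, Finset.mem_range]
      have := h q (by omega) hq.1 hq.2
      exact ⟨this.1, hq.2, this.2⟩
  exact (Finset.card_le_card this).trans (Finset.card_union_le _ _)

theorem ball_bound {m p a s : ℕ} (hm : 1 ≤ m) (hp : p < 3 * m) (ha : a ≤ 1)
    (hpa : a = 1 → p % 3 ≠ 1) (hs : 1 ≤ s) (hecc : s ≤ a + p + 1 ∨ s ≤ a + (3 * m - 1 - p) + 1) :
    2 * s ≤ (SE m p a s).card + 2 * (LE m p a s).card + 2 * (RE m p a s).card := by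
  have hdd0 : ∀ q, dd p a q 0 = (p - q) + (q - p) + a := by
    intro q; unfold dd; split_ifs <;> omega
  have hdd1 : ∀ q, p ≠ q → dd p a q 1 = (p - q) + (q - p) + a + 1 := by
    intro q h; unfold dd; rw [if_neg h]; omega
  have hdd2 : dd p a p 1 ≤ 1 := by unfold dd; rw [if_pos rfl]; omega
  have hR : ∀ q, (q = 0 ∨ q = 3 * m - 1) → q ∈ LE m p a s → 1 ≤ (RE m p a s).card := by
    intro q h1 h2
    apply Finset.card_pos.2
    refine ⟨q, ?_⟩
    unfold RE
    rw [Finset.mem_filter]
    exact ⟨h2, h1⟩
  have hL : ∀ q, q < 3 * m → q % 3 ≠ 1 → (p - q) + (q - p) + a + 1 ≤ s →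
      q ∈ LE m p a s := by
    intro q h1 h2 h3
    unfold LE
    rw [Finset.mem_filter, Finset.mem_range]
    refine ⟨h1, h2, ?_, ?_⟩
    · rw [hdd0]; omega
    · by_cases hpq : p = q
      · subst hpq; exact hdd2.trans hs
      · rw [hdd1 q hpq]; exact h3
  by_cases hA : s ≤ p + a
  · by_cases hB : p + s ≤ 3 * m - 1 + a
    · -- no side is cut off
      have h1 := SE_card (m := m) (p := p) (a := a) (s := s) (lo := p + a - s) (hi := p + s - a) (by
        intro q hq1 hq2
        rw [hdd0, hdd0]
        omega)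
      have h2 : a = 1 → 1 ≤ (LE m p a s).card := by
        intro h
        apply Finset.card_pos.2
        refine ⟨p, ?_⟩
        unfold LE
        rw [Finset.mem_filter, Finset.mem_range]
        refine ⟨hp, hpa h, ?_, hdd2.trans hs⟩
        rw [hdd0]; omega
      rcases Nat.eq_zero_or_pos a with h0 | h0
      · omega
      · have := h2 (by omega)
        omega
    · -- the right side is cut off
      have h1 := SE_card (m := m) (p := p) (a := a) (s := s) (lo := p + a - s) (hi := 3 * m - 1) (by
        intro q hq1 hq2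
        rw [hdd0, hdd0]
        omega)
      have h2 := LE_card (m := m) (p := p) (a := a) (s := s) (lo := p + a - s + 1) (hi := 3 * m)
        (by
        intro q hq1 hq2 hq3
        refine ⟨hq2, ?_, ?_⟩
        · rw [hdd0]; omega
        · by_cases hpq : p = q
          · subst hpq; exact hdd2.trans hs
          · rw [hdd1 q hpq]; omega)
      have h3 := hR (3 * m - 1) (Or.inr rfl) (hL (3 * m - 1) (by omega) (by omega) (by omega))
      omega
  · by_cases hB : p + s ≤ 3 * m - 1 + a
    · -- the left side is cut off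
      have h1 := SE_card (m := m) (p := p) (a := a) (s := s) (lo := 0) (hi := p + s - a) (by
        intro q hq1 hq2
        rw [hdd0, hdd0]
        omega)
      have h2 := LE_card (m := m) (p := p) (a := a) (s := s) (lo := 0) (hi := p + s - a)
        (by
        intro q hq1 hq2 hq3
        refine ⟨by omega, ?_, ?_⟩
        · rw [hdd0]; omega
        · by_cases hpq : p = q
          · subst hpq; exact hdd2.trans hs
          · rw [hdd1 q hpq]; omega)
      have h3 := hR 0 (Or.inl rfl) (hL 0 (by omega) (by omega) (by omega))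
      omega
    · -- both sides are cut off
      have h1 := SE_card (m := m) (p := p) (a := a) (s := s) (lo := 0) (hi := 3 * m - 1) (by
        intro q hq1 hq2
        rw [hdd0, hdd0]
        omega)
      have h2 := LE_card (m := m) (p := p) (a := a) (s := s) (lo := 0) (hi := 3 * m)
        (by
        intro q hq1 hq2 hq3
        refine ⟨by omega, ?_, ?_⟩
        · rw [hdd0]; omega
        · by_cases hpq : p = q
          · subst hpq; exact hdd2.trans hs
          · rw [hdd1 q hpq]; omega)
      have h3 := hR 0 (Or.inl rfl) (hL 0 (by omega) (by omega) (by omega))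
      omega

theorem bn_le (hm : 1 ≤ m) : 2 * bnNumber (T m) ≤ 7 * m + 3 := by
  have key : ∀ g : Vtx m → ℕ, IsBroadcast (T m) g → BnIndependent (T m) g →
      2 * ∑ v, g v ≤ 7 * m + 3 := by
    intro g hb hi
    set S : Finset (Vtx m) := Finset.univ.filter fun v => 0 < g v with hS
    have hsum : ∑ v, g v = ∑ v ∈ S, g v := by
      symm
      apply Finset.sum_subset (Finset.subset_univ _)
      intro v _ hv
      by_contra h
      exact hv (Finset.mem_filter.2 ⟨Finset.mem_univ _, Nat.pos_of_ne_zero h⟩)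
    have hball : ∀ v ∈ S, 2 * g v ≤ (SE m (pos v) (dep v) (g v)).card +
        2 * (LE m (pos v) (dep v) (g v)).card + 2 * (RE m (pos v) (dep v) (g v)).card := by
      intro v hv
      have hv0 : 0 < g v := (Finset.mem_filter.1 hv).2
      apply ball_bound hm (pos_lt v) (dep_le v) (pos_mod v) hv0
      have h1 := hb v
      have h2 : ecc (T m) v ≤ max (dep v + pos v + 1) (dep v + (3 * m - 1 - pos v) + 1) := by
        apply Finset.sup_le
        intro u _
        rw [T_dist]
        have h3 := pos_lt v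
        have h4 := pos_lt u
        have h5 := dep_le v
        have h6 := dep_le u
        unfold dd
        split_ifs <;> omega
      have h3 := h1.trans h2
      exact (le_max_iff.1 h3)
    -- distances to an edge
    have hdisjS : ∀ u ∈ S, ∀ v ∈ S, u ≠ v →
        Disjoint (SE m (pos u) (dep u) (g u)) (SE m (pos v) (dep v) (g v)) := by
      intro u hu v hv huv
      have hu0 : 0 < g u := (Finset.mem_filter.1 hu).2
      have hv0 : 0 < g v := (Finset.mem_filter.1 hv).2
      rw [Finset.disjoint_left]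
      intro q hq1 hq2
      unfold SE at hq1 hq2
      rw [Finset.mem_filter, Finset.mem_range] at hq1 hq2
      have e1 := hi u v huv hu0 hv0 (sp q (by omega))
        (by rw [SimpleGraph.dist_comm, T_dist, pos_sp, dep_sp]; exact hq1.2.1)
        (by rw [SimpleGraph.dist_comm, T_dist, pos_sp, dep_sp]; exact hq2.2.1)
      have e2 := hi u v huv hu0 hv0 (sp (q + 1) (by omega))
        (by rw [SimpleGraph.dist_comm, T_dist, pos_sp, dep_sp]; exact hq1.2.2)
        (by rw [SimpleGraph.dist_comm, T_dist, pos_sp, dep_sp]; exact hq2.2.2)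
      have e3 := e1.1
      have e4 := e2.1
      rw [SimpleGraph.dist_comm, T_dist, pos_sp, dep_sp] at e3 e4
      unfold dd at e3 e4
      split_ifs at e3 e4 <;> omega
    have hdisjL : ∀ u ∈ S, ∀ v ∈ S, u ≠ v →
        Disjoint (LE m (pos u) (dep u) (g u)) (LE m (pos v) (dep v) (g v)) := by
      intro u hu v hv huv
      have hu0 : 0 < g u := (Finset.mem_filter.1 hu).2
      have hv0 : 0 < g v := (Finset.mem_filter.1 hv).2
      rw [Finset.disjoint_left]
      intro q hq1 hq2
      unfold LE at hq1 hq2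
      rw [Finset.mem_filter, Finset.mem_range] at hq1 hq2
      have e1 := hi u v huv hu0 hv0 (sp q hq1.1)
        (by rw [SimpleGraph.dist_comm, T_dist, pos_sp, dep_sp]; exact hq1.2.2.1)
        (by rw [SimpleGraph.dist_comm, T_dist, pos_sp, dep_sp]; exact hq2.2.2.1)
      have e2 := hi u v huv hu0 hv0 (lf q hq1.1 hq1.2.1)
        (by rw [SimpleGraph.dist_comm, T_dist, pos_lf, dep_lf]; exact hq1.2.2.2)
        (by rw [SimpleGraph.dist_comm, T_dist, pos_lf, dep_lf]; exact hq2.2.2.2)
      have e3 := e1.1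
      have e4 := e2.1
      rw [SimpleGraph.dist_comm, T_dist, pos_sp, dep_sp] at e3
      rw [SimpleGraph.dist_comm, T_dist, pos_lf, dep_lf] at e4
      have := dep_le u
      unfold dd at e3 e4
      split_ifs at e3 e4 <;> omega
    have hdisjR : ∀ u ∈ S, ∀ v ∈ S, u ≠ v →
        Disjoint (RE m (pos u) (dep u) (g u)) (RE m (pos v) (dep v) (g v)) := by
      intro u hu v hv huv
      exact Finset.disjoint_of_subset_left (Finset.filter_subset _ _)
        (Finset.disjoint_of_subset_right (Finset.filter_subset _ _) (hdisjL u hu v hv huv))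
    have c1 : ∑ v ∈ S, (SE m (pos v) (dep v) (g v)).card ≤ 3 * m - 1 := by
      rw [← Finset.card_biUnion hdisjS]
      calc _ ≤ (Finset.range (3 * m - 1)).card := by
            apply Finset.card_le_card
            intro q hq
            rw [Finset.mem_biUnion] at hq
            obtain ⟨v, _, hq⟩ := hq
            exact (Finset.mem_filter.1 hq).1
        _ = 3 * m - 1 := Finset.card_range _
    have c2 : ∑ v ∈ S, (LE m (pos v) (dep v) (g v)).card ≤ 2 * m := by
      rw [← Finset.card_biUnion hdisjL]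
      calc _ ≤ ((Finset.range (3 * m)).filter fun q => q % 3 ≠ 1).card := by
            apply Finset.card_le_card
            intro q hq
            rw [Finset.mem_biUnion] at hq
            obtain ⟨v, _, hq⟩ := hq
            have := Finset.mem_filter.1 hq
            exact Finset.mem_filter.2 ⟨this.1, this.2.1⟩
        _ = 3 * m - (3 * m + 1) / 3 := count_mod _
        _ = 2 * m := by omega
    have c3 : ∑ v ∈ S, (RE m (pos v) (dep v) (g v)).card ≤ 2 := by
      rw [← Finset.card_biUnion hdisjR]
      calc _ ≤ ({0, 3 * m - 1} : Finset ℕ).card := by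
            apply Finset.card_le_card
            intro q hq
            rw [Finset.mem_biUnion] at hq
            obtain ⟨v, _, hq⟩ := hq
            have := (Finset.mem_filter.1 hq).2
            simpa using this
        _ ≤ 2 := Finset.card_le_two
    rw [hsum, Finset.mul_sum]
    calc ∑ v ∈ S, 2 * g v ≤ ∑ v ∈ S, ((SE m (pos v) (dep v) (g v)).card +
        2 * (LE m (pos v) (dep v) (g v)).card + 2 * (RE m (pos v) (dep v) (g v)).card) :=
          Finset.sum_le_sum hball
      _ = ∑ v ∈ S, (SE m (pos v) (dep v) (g v)).card +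
        2 * ∑ v ∈ S, (LE m (pos v) (dep v) (g v)).card +
        2 * ∑ v ∈ S, (RE m (pos v) (dep v) (g v)).card := by
          rw [Finset.sum_add_distrib, Finset.sum_add_distrib, Finset.mul_sum, Finset.mul_sum]
      _ ≤ (3 * m - 1) + 2 * (2 * m) + 2 * 2 := by omega
      _ ≤ 7 * m + 3 := by omega
  have hle : bnNumber (T m) ≤ (7 * m + 3) / 2 := by
    apply csSup_le'
    rintro c ⟨g, hb, hi, rfl⟩
    have := key g hb hi
    omega
  omega

/-- For every `C` there is a finite tree `T` with `Γ_b(T) - α_bn(T) > C`; for every `m ≥ 1` there is a tree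
with `Γ_b ≥ 4m` and `2 α_bn ≤ 7m + 3`. -/
theorem result :
    (∀ C : ℕ, ∃ (V : Type) (_ : Fintype V) (_ : DecidableEq V) (G : SimpleGraph V),
      G.IsTree ∧ bnNumber G + C < upperBroadcast G) ∧
    (∀ m : ℕ, 1 ≤ m → ∃ (V : Type) (_ : Fintype V) (_ : DecidableEq V) (G : SimpleGraph V),
      G.IsTree ∧ 4 * m ≤ upperBroadcast G ∧ 2 * bnNumber G ≤ 7 * m + 3) := by
  refine ⟨fun C => ?_, fun m hm => ?_⟩
  · refine ⟨Vtx (2 * C + 4), inferInstance, inferInstance, T (2 * C + 4), T_tree (by omega), ?_⟩
    have h1 := upper_ge (m := 2 * C + 4)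
    have h2 := bn_le (m := 2 * C + 4) (by omega)
    omega
  · exact ⟨Vtx m, inferInstance, inferInstance, T m, T_tree hm, upper_ge, bn_le hm⟩

end Pool.Agent.Results.MP_4edf50_co.Unbounded
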